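import Mathlib

set_option autoImplicit false
open Matrix

namespace Pool.Agent.Lib.MP_3e2ec7_co

/-- exponential of a matrix on a family of eigenvectors -/
theorem exp_mul_eig {V : Type} [Fintype V] [DecidableEq V] (M F : Matrix V V ℂ) (d : V → ℂ)
    (h : M * F = F * diagonal d) :
    NormedSpace.exp M * F = F * diagonal (fun v => Complex.exp (d v)) := by
  have h1 : SemiconjBy F (diagonal d) M := h.symm
  have h2 : SemiconjBy F (NormedSpace.exp (diagonal d)) (NormedSpace.exp M) := by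
    open scoped Norms.Operator in exact h1.exp_right
  rw [Matrix.exp_diagonal] at h2
  have h3 : NormedSpace.exp d = fun v => Complex.exp (d v) := by
    funext v
    rw [Pi.coe_exp, Complex.exp_eq_exp_ℂ]
  rw [h3] at h2
  exact h2.eq.symm

abbrev F5 := ZMod 5
abbrev W := F5 × F5
abbrev V := W × W

def dotW (a b : W) : F5 := a.1 * b.1 + a.2 * b.2
def dot (a b : V) : F5 := dotW a.1 b.1 + dotW a.2 b.2

/-- thirty points of the projective space -/
def P : List V :=
  [((0,2),(1,0)), ((0,3),(1,0)), ((1,0),(1,0)), ((1,2),(1,0)), ((2,0),(1,0)), ((2,2),(1,0)),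
   ((3,2),(1,0)), ((3,3),(1,0)), ((4,0),(1,0)), ((4,1),(1,0)),
   ((0,1),(0,1)), ((0,3),(0,1)), ((1,2),(0,1)), ((1,3),(0,1)), ((2,1),(0,1)), ((2,3),(0,1)),
   ((3,0),(0,1)), ((3,1),(0,1)), ((4,0),(0,1)), ((4,1),(0,1)),
   ((0,0),(1,1)), ((0,1),(1,1)), ((0,3),(1,1)), ((0,4),(1,1)), ((1,2),(1,1)), ((1,3),(1,1)),
   ((1,4),(1,1)), ((2,1),(1,1)), ((2,2),(1,1)), ((3,0),(1,1))]

def sc (u : F5) (p : V) : V := ((u * p.1.1, u * p.1.2), (u * p.2.1, u * p.2.2))

def line (p : V) : List V := [sc 1 p, sc 2 p, sc 3 p, sc 4 p]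

/-- the connection set -/
def S : List V := ((1,0),(0,0)) :: ((4,0),(0,0)) :: P.flatMap line

theorem S_nodup : S.Nodup := by decide +kernel

theorem S_neg : ∀ s ∈ S, -s ∈ S := by decide +kernel

theorem S_zero : (0 : V) ∉ S := by decide +kernel

def G : SimpleGraph V where
  Adj g h := g - h ∈ S
  symm := ⟨fun g h hh => by
    have := S_neg _ hh
    rwa [neg_sub] at this⟩
  loopless := ⟨fun g hh => by
    rw [sub_self] at hh
    exact S_zero hh⟩

instance : DecidableRel G.Adj := fun g h => inferInstanceAs (Decidable (g - h ∈ S))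

/-- number of points orthogonal to `v` -/
def Z (v : V) : ℕ := P.countP (fun p => dot v p = 0)

def piW (x : W) : W := ((Z (x, (1,0)) : F5) - Z (x, (0,0)), (Z (x, (0,1)) : F5) - Z (x, (0,0)))

theorem Z_eq : ∀ x y : W, (Z (x, y) : F5) = Z (x, (0,0)) + dotW (piW x) y := by decide +kernel

theorem piW_inj : ∀ x x' : W, piW x = piW x' → x = x' := by decide +kernel

end Pool.Agent.Lib.MP_3e2ec7_co
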