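import Pool.Agent.Lib.MP_3e2ec7_co.Basic

set_option autoImplicit false
open Matrix

namespace Pool.Agent.Lib.MP_3e2ec7_co

noncomputable def e : AddChar F5 ℂ := ZMod.stdAddChar

theorem e_add (a b : F5) : e (a + b) = e a * e b := e.map_add_eq_mul a b

theorem e_zero : e 0 = 1 := e.map_zero_eq_one

theorem norm_e (a : F5) : ‖e a‖ = 1 := by
  unfold e
  rw [ZMod.stdAddChar_apply]
  exact Circle.norm_coe _

theorem sum_e (t : F5) : ∑ x : F5, e (x * t) = if t = 0 then 5 else 0 := by
  have := AddChar.sum_mulShift (ψ := (ZMod.stdAddChar : AddChar F5 ℂ)) t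
    (ZMod.isPrimitive_stdAddChar 5)
  unfold e
  rw [this]
  split_ifs <;> simp

theorem sum_eW (m : W) : ∑ y : W, e (dotW y m) = if m = 0 then 25 else 0 := by
  rw [Fintype.sum_prod_type]
  simp only [dotW, e_add]
  rw [← Finset.sum_mul_sum, sum_e, sum_e]
  obtain ⟨a, b⟩ := m
  by_cases ha : a = 0 <;> by_cases hb : b = 0 <;> simp [ha, hb]
  norm_num

theorem sum_eV (m : V) : ∑ v : V, e (dot v m) = if m = 0 then 625 else 0 := by
  rw [Fintype.sum_prod_type]
  simp only [dot, e_add]
  rw [← Finset.sum_mul_sum, sum_eW, sum_eW]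
  obtain ⟨a, b⟩ := m
  by_cases ha : a = 0 <;> by_cases hb : b = 0 <;> simp [ha, hb]
  norm_num

theorem dot_sub (v g h : V) : dot v (g - h) = dot v g + -dot v h := by
  simp only [dot, dotW, Prod.fst_sub, Prod.snd_sub]; ring

theorem dot_sc (v p : V) (u : F5) : dot v (sc u p) = u * dot v p := by
  simp only [dot, dotW, sc]; ring

theorem line_sum (t : F5) :
    e (-(1 * t)) + (e (-(2 * t)) + (e (-(3 * t)) + e (-(4 * t)))) =
      (if t = 0 then 5 else 0) - 1 := by
  have h := sum_e (-t)
  have h2 : ∑ x : F5, e (x * -t) =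
      e (0 * -t) + e (1 * -t) + e (2 * -t) + e (3 * -t) + e (4 * -t) :=
    Fin.sum_univ_five (fun x : F5 => e (x * -t))
  rw [h2] at h
  rw [zero_mul, e_zero] at h
  simp only [neg_eq_zero, mul_neg] at h
  rw [← h]; ring

theorem lines_sum (v : V) (L : List V) :
    ((L.flatMap line).map (fun s => e (-dot v s))).sum =
      5 * (L.countP (fun p => dot v p = 0) : ℂ) - L.length := by
  induction L with
  | nil => simp
  | cons p L ih =>
    rw [List.flatMap_cons, List.map_append, List.sum_append, ih, List.countP_cons]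
    simp only [line, List.map_cons, List.map_nil, List.sum_cons, List.sum_nil, add_zero, dot_sc,
      line_sum, List.length_cons]
    by_cases h : dot v p = 0 <;> simp [h] <;> ring

/-- contribution of the pentagon -/
noncomputable def beta (a : F5) : ℂ := e (-a) + e a

/-- the eigenvalue -/
noncomputable def theta (v : V) : ℂ := beta v.1.1 + (5 * (Z v : ℂ) - 30)

theorem S_sum (v : V) : (S.map (fun s => e (-dot v s))).sum = theta v := by
  have h1 : dot v ((1,0),(0,0)) = v.1.1 := by simp [dot, dotW]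
  have h2 : -dot v ((4,0),(0,0)) = v.1.1 := by
    simp only [dot, dotW, mul_zero, add_zero]
    have : (4 : F5) = -1 := by decide
    rw [this]; ring
  have h3 : (P.length : ℂ) = 30 := by simp [P]
  unfold S theta beta Z
  rw [List.map_cons, List.map_cons, List.sum_cons, List.sum_cons, lines_sum, h1, h2, h3]
  ring

noncomputable def F : Matrix V V ℂ := fun g v => e (dot v g)
noncomputable def Fb : Matrix V V ℂ := fun v h => e (-dot v h)

theorem F_mul_Fb : F * Fb = (625 : ℂ) • (1 : Matrix V V ℂ) := by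
  ext g h
  simp only [Matrix.mul_apply, F, Fb, ← e_add, ← dot_sub, sum_eV, sub_eq_zero, Matrix.smul_apply,
    Matrix.one_apply, smul_eq_mul]
  split_ifs <;> simp

theorem adj_mul_F : G.adjMatrix ℂ * F = F * diagonal theta := by
  ext g v
  rw [Matrix.mul_diagonal, Matrix.mul_apply, ← S_sum,
    ← List.sum_toFinset _ S_nodup]
  rw [← Equiv.sum_comp (Equiv.subLeft g)]
  simp only [SimpleGraph.adjMatrix_apply, Equiv.subLeft_apply, G, sub_sub_cancel, F, dot_sub,
    e_add, ite_mul, one_mul, zero_mul]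
  rw [Finset.mul_sum, ← Finset.sum_filter]
  apply Finset.sum_congr _ (fun _ _ => rfl)
  ext s; simp

noncomputable def tau : ℝ := 2 * Real.pi / 25

noncomputable def U : Matrix V V ℂ :=
  NormedSpace.exp ((Complex.I * (tau : ℂ)) • G.adjMatrix ℂ)

noncomputable def mu (v : V) : ℂ := Complex.exp (Complex.I * (tau : ℂ) * theta v)

theorem U_mul_F : U * F = F * diagonal mu := by
  apply exp_mul_eig
  rw [Matrix.smul_mul, adj_mul_F, ← Matrix.mul_smul, ← Matrix.diagonal_smul]
  rfl

noncomputable def cc (x : W) : ℂ :=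
  Complex.exp (Complex.I * (tau : ℂ) * (beta x.1 - 30)) * e (Z (x, (0,0)))

theorem beta_im (a : F5) : (beta a).im = 0 := by
  unfold beta
  rw [AddChar.map_neg_eq_conj]
  simp

theorem norm_cc (x : W) : ‖cc x‖ = 1 := by
  unfold cc
  rw [norm_mul, norm_e, mul_one, Complex.norm_exp]
  simp [beta_im]

theorem e_nat (n : ℕ) : e (n : F5) = Complex.exp (Complex.I * (tau : ℂ) * (5 * n)) := by
  have := ZMod.stdAddChar_coe (N := 5) (n : ℤ)
  unfold e tau
  rw [Int.cast_natCast] at this
  rw [this]
  congr 1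
  push_cast
  ring

theorem mu_eq (x y : W) : mu (x, y) = cc x * e (dotW (piW x) y) := by
  unfold mu cc theta
  rw [mul_assoc _ (e _), ← e_add, ← Z_eq, e_nat, ← Complex.exp_add]
  congr 1
  ring

theorem piW_surj : Function.Surjective piW :=
  Finite.injective_iff_surjective.mp (fun x x' h => piW_inj x x' h)

theorem norm_U (g h : V) : ‖U g h‖ = 1 / 25 := by
  have h1 : (625 : ℂ) • U = F * diagonal mu * Fb := by
    rw [← U_mul_F, Matrix.mul_assoc, F_mul_Fb, Matrix.mul_smul, Matrix.mul_one]
  have h2 : 625 * U g h = ∑ v : V, e (dot v (g - h)) * mu v := by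
    have := congrFun (congrFun h1 g) h
    rw [Matrix.smul_apply, smul_eq_mul] at this
    rw [this, Matrix.mul_apply]
    apply Finset.sum_congr rfl
    intro v _
    rw [Matrix.mul_diagonal, dot_sub, e_add]
    unfold F Fb
    ring
  obtain ⟨x0, hx0⟩ := piW_surj (-(g - h).2)
  have h3 : ∀ x : W, ∑ y : W, e (dot (x, y) (g - h)) * mu (x, y) =
      if x = x0 then 25 * (e (dotW x (g - h).1) * cc x) else 0 := by
    intro x
    have h4 : ∀ y : W, e (dot (x, y) (g - h)) * mu (x, y) =
        (e (dotW x (g - h).1) * cc x) * e (dotW y ((g - h).2 + piW x)) := by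
      intro y
      have : dotW y ((g - h).2 + piW x) = dotW y (g - h).2 + dotW (piW x) y := by
        simp only [dotW, Prod.fst_add, Prod.snd_add]; ring
      rw [mu_eq, this, dot, e_add, e_add]
      ring
    simp only [h4]
    rw [← Finset.mul_sum, sum_eW]
    by_cases hx : x = x0
    · subst hx
      rw [hx0]; simp [mul_comm]
    · have : (g - h).2 + piW x ≠ 0 := by
        intro h5
        apply hx
        apply piW_inj
        rw [hx0]
        exact eq_neg_of_add_eq_zero_right h5
      rw [if_neg this, if_neg hx, mul_zero]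
  rw [Fintype.sum_prod_type] at h2
  simp only [h3, Finset.sum_ite_eq', Finset.mem_univ, if_true] at h2
  have h6 := congrArg norm h2
  rw [norm_mul, norm_mul, norm_mul, norm_e, norm_cc] at h6
  simp only [Complex.norm_ofNat] at h6
  linarith

theorem beta_sq : (2 * beta 1 + 1) ^ 2 = 5 := by
  have h := line_sum (1 : F5)
  have a1 : -((1 : F5) * 1) = -1 := by decide
  have a2 : -((2 : F5) * 1) = -1 + -1 := by decide
  have a3 : -((3 : F5) * 1) = 1 + 1 := by decide
  have a4 : -((4 : F5) * 1) = 1 := by decide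
  have a5 : e (-1) * e 1 = 1 := by rw [← e_add]; simp
  have a6 : ¬ ((1 : F5) = 0) := by decide
  rw [a1, a2, a3, a4, e_add, e_add, if_neg a6] at h
  unfold beta
  linear_combination 4 * h + 8 * a5

theorem mu_not_root (y : W) (k : ℕ) (hk : 0 < k) : mu ((1, 0), y) ^ k ≠ 1 := by
  intro h
  unfold mu at h
  rw [← Complex.exp_nat_mul, Complex.exp_eq_one_iff] at h
  obtain ⟨n, hn⟩ := h
  have hpi : (Real.pi : ℂ) ≠ 0 := by exact_mod_cast Real.pi_ne_zero
  have hk' : (k : ℂ) ≠ 0 := by exact_mod_cast hk.ne'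
  have h1 : (k : ℂ) * theta ((1, 0), y) = 25 * n := by
    have h2 : (2 * Real.pi * Complex.I / 25) * ((k : ℂ) * theta ((1, 0), y)) =
        (2 * Real.pi * Complex.I / 25) * (25 * n) := by
      unfold tau at hn
      push_cast at hn
      linear_combination hn
    refine mul_left_cancel₀ ?_ h2
    simp [hpi]
  set z := Z ((1, 0), y) with hz
  have h3 : theta ((1, 0), y) = beta 1 + (5 * (z : ℂ) - 30) := rfl
  let q : ℚ := 2 * (25 * n / k - (5 * z - 30)) + 1
  have h4 : (q : ℂ) = 2 * beta 1 + 1 := by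
    simp only [q]
    push_cast
    rw [← h1, h3]
    field_simp
    ring
  have h5 : q ^ 2 = 5 := by
    have : ((q ^ 2 : ℚ) : ℂ) = ((5 : ℚ) : ℂ) := by
      push_cast
      rw [h4, beta_sq]
    exact_mod_cast this
  have h6 : Irrational (√(5 : ℕ)) := Nat.Prime.irrational_sqrt (by norm_num)
  apply h6
  refine ⟨|q|, ?_⟩
  have : ((5 : ℕ) : ℝ) = (q : ℝ) ^ 2 := by exact_mod_cast h5.symm
  rw [this, Real.sqrt_sq_eq_abs]
  push_cast
  rfl

theorem eig (v : V) : U *ᵥ (fun g => F g v) = mu v • (fun g => F g v) := by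
  funext g
  have := congrFun (congrFun U_mul_F g) v
  rw [Matrix.mul_diagonal, Matrix.mul_apply] at this
  simp only [Matrix.mulVec, dotProduct, Pi.smul_apply, smul_eq_mul]
  rw [this, mul_comm]

theorem col_ne (v : V) : (fun g => F g v) ≠ 0 := by
  intro h
  have := congrFun h 0
  have h2 := norm_e (dot v 0)
  simp only [F, Pi.zero_apply] at this
  rw [this] at h2
  simp at h2

end Pool.Agent.Lib.MP_3e2ec7_co
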